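import Pool.Agent.Helper93.TranspFinal

set_option autoImplicit false

namespace Pool.Agent.Results.MP_5ffd91_co.ExactSizes

/-- Ben Efraim's conjecture for all sizes `a·k!` and `n! - a·k!` with `a ≤ k+1`: among all sets
`A` of permutations of `Fin n` with `|A| = a·k!` or `|A| = n! - a·k!`, the initial segment of the
lexicographic order of size `|A|` has the smallest edge boundary in the transposition graph. -/
theorem result (n k a : ℕ) (ha : a ≤ k + 1) (A : Finset (Equiv.Perm (Fin n)))
    (hA : A.card = a * k.factorial ∨ A.card + a * k.factorial = n.factorial) :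
    ((Finset.univ : Finset (Equiv.Perm (Fin n) × Fin n × Fin n)).filter
        (fun p => p.2.1 < p.2.2 ∧
          p.1 ∈ (Finset.univ.filter (fun σ : Equiv.Perm (Fin n) =>
            (Finset.univ.filter (fun π : Equiv.Perm (Fin n) =>
              ∃ j : Fin n, (∀ i : Fin n, i < j → π i = σ i) ∧ π j < σ j)).card < A.card)) ∧
          p.1 * Equiv.swap p.2.1 p.2.2 ∉ (Finset.univ.filter (fun σ : Equiv.Perm (Fin n) =>
            (Finset.univ.filter (fun π : Equiv.Perm (Fin n) =>
              ∃ j : Fin n, (∀ i : Fin n, i < j → π i = σ i) ∧ π j < σ j)).card < A.card)))).card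
      ≤ ((Finset.univ : Finset (Equiv.Perm (Fin n) × Fin n × Fin n)).filter
        (fun p => p.2.1 < p.2.2 ∧ p.1 ∈ A ∧ p.1 * Equiv.swap p.2.1 p.2.2 ∉ A)).card :=
  Pool.Agent.Helper93.Transp.exact_sizes A k a ha hA

end Pool.Agent.Results.MP_5ffd91_co.ExactSizes
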