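import Pool.Agent.Helper93.TranspFinal

set_option autoImplicit false

namespace Pool.Agent.Results.MP_5ffd91_co.GeneralBound

/-- For every set `A` of permutations of `Fin n` and every `k ≥ 1`, the edge boundary of `A` in the
transposition graph has at least `|A| (C(n,2) - C(k,2) + 1) - |A|² / k!` edges. -/
theorem result (n k : ℕ) (hk : 1 ≤ k) (A : Finset (Equiv.Perm (Fin n))) :
    (A.card : ℚ) * ((n.choose 2 : ℚ) - (k.choose 2 : ℚ) + 1)
        - (A.card : ℚ) ^ 2 / (k.factorial : ℚ)
      ≤ (((Finset.univ : Finset (Equiv.Perm (Fin n) × Fin n × Fin n)).filter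
        (fun p => p.2.1 < p.2.2 ∧ p.1 ∈ A ∧ p.1 * Equiv.swap p.2.1 p.2.2 ∉ A)).card : ℚ) := by
  have h := Pool.Agent.Helper93.Transp.bound_bd A k hk
  unfold Pool.Agent.Helper93.Transp.L at h
  refine le_trans (le_of_eq ?_) h
  ring

end Pool.Agent.Results.MP_5ffd91_co.GeneralBound
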