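import Pool.Agent.Helper93.TranspSeg

set_option autoImplicit false

namespace Pool.Agent.Results.MP_5ffd91_co.NearOptimal

/-- For every `n`, `k` and every set `A` of permutations of `Fin n` with `|A| ≤ (k+1)!`, the
lexicographic initial segment of size `|A|` has at most
`∑_{i ≤ k} (i-1) i! {|A|/i!} (1 - {|A|/i!})` more boundary edges in the transposition graph
than `A`. -/
theorem result (n k : ℕ) (A : Finset (Equiv.Perm (Fin n))) (hA : A.card ≤ (k + 1).factorial) :
    (((Finset.univ : Finset (Equiv.Perm (Fin n) × Fin n × Fin n)).filter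
        (fun p => p.2.1 < p.2.2 ∧
          p.1 ∈ (Finset.univ.filter (fun σ : Equiv.Perm (Fin n) =>
            (Finset.univ.filter (fun π : Equiv.Perm (Fin n) =>
              ∃ j : Fin n, (∀ i : Fin n, i < j → π i = σ i) ∧ π j < σ j)).card < A.card)) ∧
          p.1 * Equiv.swap p.2.1 p.2.2 ∉ (Finset.univ.filter (fun σ : Equiv.Perm (Fin n) =>
            (Finset.univ.filter (fun π : Equiv.Perm (Fin n) =>
              ∃ j : Fin n, (∀ i : Fin n, i < j → π i = σ i) ∧ π j < σ j)).card < A.card)))).card : ℚ)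
      ≤ (((Finset.univ : Finset (Equiv.Perm (Fin n) × Fin n × Fin n)).filter
        (fun p => p.2.1 < p.2.2 ∧ p.1 ∈ A ∧ p.1 * Equiv.swap p.2.1 p.2.2 ∉ A)).card : ℚ)
        + ∑ i ∈ Finset.range (k + 1), ((i : ℚ) - 1) * (i.factorial : ℚ) *
            (Int.fract ((A.card : ℚ) / (i.factorial : ℚ)) *
              (1 - Int.fract ((A.card : ℚ) / (i.factorial : ℚ)))) :=
  Pool.Agent.Helper93.Transp.near_optimal k A hA

end Pool.Agent.Results.MP_5ffd91_co.NearOptimal
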